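import Pool.Agent.Helper32.Arb.Nest

/-!
Project ARB (MP_2b0227_gt), packet GSUM.
-/

namespace Pool.Agent.Helper32.Arb

open Pool.Agent.Helper37.Arb

theorem conv_comm (f g : ℤ → ℝ) : conv f g = conv g f := by
  funext v
  unfold conv
  rw [← finsum_comp_equiv (Equiv.subLeft v)]
  refine finsum_congr fun i ↦ ?_
  show f (v - i) * g (v - (v - i)) = g i * f (v - i)
  rw [sub_sub_cancel, mul_comm]

theorem conv_symm {f g : ℤ → ℝ} {A B : ℤ} (hf : ∀ s, f (A - s) = f s) (hg : ∀ s, g (B - s) = g s)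
    (v : ℤ) : conv f g (A + B - v) = conv f g v := by
  unfold conv
  rw [← finsum_comp_equiv (Equiv.subLeft A)]
  refine finsum_congr fun i ↦ ?_
  show f (A - i) * g (A + B - v - (A - i)) = f i * g (v - i)
  rw [hf, ← hg (v - i)]
  congr 2
  ring

theorem conv_zero {f g : ℤ → ℝ} {p q p' q' : ℤ} (hf : ∀ s, s < p ∨ q < s → f s = 0)
    (hg : ∀ s, s < p' ∨ q' < s → g s = 0) (v : ℤ) (hv : v < p + p' ∨ q + q' < v) :
    conv f g v = 0 := by
  unfold conv
  refine (finsum_congr fun i ↦ ?_).trans finsum_zero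
  by_cases h : i < p ∨ q < i
  · rw [hf i h, zero_mul]
  · rw [hg (v - i) (by omega), mul_zero]

theorem conv_eq_sum {f : ℤ → ℝ} (g : ℤ → ℝ) {p q : ℤ} (hf : ∀ s, s < p ∨ q < s → f s = 0) (v : ℤ) :
    conv f g v = ∑ i ∈ Finset.Icc p q, f i * g (v - i) := by
  unfold conv
  refine finsum_eq_sum_of_support_subset _ ?_
  intro i hi
  rw [Finset.coe_Icc, Set.mem_Icc]
  by_contra h
  apply hi
  have : f i = 0 := hf i (by omega)
  simp [this]

theorem conv_nonneg {f g : ℤ → ℝ} (hf : ∀ s, 0 ≤ f s) (hg : ∀ s, 0 ≤ g s) (v : ℤ) :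
    0 ≤ conv f g v := finsum_nonneg fun _ ↦ mul_nonneg (hf _) (hg _)

theorem conv_pos {f g : ℤ → ℝ} {p q p' q' : ℤ} (hf : ∀ s, s < p ∨ q < s → f s = 0)
    (hf1 : ∀ s, p ≤ s → s ≤ q → 0 < f s) (hg0 : ∀ s, 0 ≤ g s)
    (hg1 : ∀ s, p' ≤ s → s ≤ q' → 0 < g s) (hp : p ≤ q) (hp' : p' ≤ q')
    (v : ℤ) (h1 : p + p' ≤ v) (h2 : v ≤ q + q') : 0 < conv f g v := by
  rw [conv_eq_sum g hf v]
  refine Finset.sum_pos' ?_ ?_
  · intro i hi
    rw [Finset.mem_Icc] at hi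
    exact mul_nonneg (hf1 i hi.1 hi.2).le (hg0 _)
  · by_cases h : v - q' ≤ p
    · refine ⟨p, Finset.mem_Icc.2 ⟨le_rfl, hp⟩, mul_pos (hf1 p le_rfl hp) (hg1 _ ?_ ?_)⟩
      · omega
      · omega
    · refine ⟨v - q', Finset.mem_Icc.2 ⟨by omega, by omega⟩,
        mul_pos (hf1 _ (by omega) (by omega)) (hg1 _ ?_ ?_)⟩
      · omega
      · omega

theorem fin_supp {f : ℤ → ℝ} {p q : ℤ} (hf : ∀ s, s < p ∨ q < s → f s = 0) :
    (Function.support f).Finite := by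
  refine (Set.finite_Icc p q).subset ?_
  intro s hs
  rw [Set.mem_Icc]
  by_contra h
  exact hs (hf s (by omega))

theorem goodTurn : GoalGoodTurn := by
  intro N k k' a b h
  have hk := h.hk
  have ne := h.ne
  have ne' := h.ne'
  refine ⟨by omega, by omega, by omega, ?_, ?_, ?_, ?_, ?_, ?_, ?_⟩
  · intro s hs
    exact h.b0 _ (by omega)
  · intro s h1 h2
    exact h.b1 _ (by omega) (by omega)
  · intro s hs
    exact h.a0 _ (by omega)
  · intro s h1 h2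
    exact h.a1 _ (by omega) (by omega)
  · intro s
    show b (N + 1 - s - 1) = b (s - 1)
    rw [← h.pb (s - 1)]
    congr 1
    ring
  · intro s
    rw [← h.pa s]
    congr 1
    ring
  · intro s
    show b (s + 1 - 1) * a (s - 1) ≤ b (s - 1) * a s
    have h1 := s2' h (s - 1)
    have e1 : s + 1 - 1 = s := by ring
    have e2 : s - 1 + 1 = s := by ring
    rw [e2] at h1
    rw [e1]
    linarith

theorem goodSum : GoalGoodSum := by
  intro hCB hN1 N₁ k₁ k₁' N₂ k₂ k₂' a₁ b₁ a₂ b₂ h₁ h₂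
  have hk₁ := h₁.hk
  have hk₂ := h₂.hk
  have ne₁ := h₁.ne
  have ne₂ := h₂.ne
  have ne₁' := h₁.ne'
  have ne₂' := h₂.ne'
  have c1 := hCB a₁ b₁ b₂ (fin_supp h₁.a0) (fin_supp h₁.b0) (fin_supp h₂.b0)
    (hN1 _ _ _ _ _ h₂).1 (hN1 _ _ _ _ _ h₁).2
  have c2 := hCB a₂ b₂ b₁ (fin_supp h₂.a0) (fin_supp h₂.b0) (fin_supp h₁.b0)
    (hN1 _ _ _ _ _ h₁).1 (hN1 _ _ _ _ _ h₂).2
  have n1 : ∀ v, 0 ≤ conv a₁ b₂ v := conv_nonneg (a_nonneg h₁) (b_nonneg h₂)
  have n2 : ∀ v, 0 ≤ conv b₁ a₂ v := conv_nonneg (b_nonneg h₁) (a_nonneg h₂)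
  have P1 : ∀ v, k₁' + k₂ ≤ v → v ≤ (N₁ - k₁') + (N₂ - 1 - k₂) → 0 < conv a₁ b₂ v :=
    fun v ↦ conv_pos h₁.a0 h₁.a1 (b_nonneg h₂) h₂.b1 ne₁' ne₂ v
  have P2 : ∀ v, k₁ + k₂' ≤ v → v ≤ (N₁ - 1 - k₁) + (N₂ - k₂') → 0 < conv b₁ a₂ v :=
    fun v ↦ conv_pos h₁.b0 h₁.b1 (a_nonneg h₂) h₂.a1 ne₁ ne₂' v
  have P3 : ∀ v, k₁ + k₂ ≤ v → v ≤ (N₁ - 1 - k₁) + (N₂ - 1 - k₂) → 0 < conv b₁ b₂ v :=
    fun v ↦ conv_pos h₁.b0 h₁.b1 (b_nonneg h₂) h₂.b1 ne₁ ne₂ v
  refine ⟨min (k₁' + k₂) (k₁ + k₂'), by omega, by omega, by omega, ?_, ?_, ?_, ?_, ?_, ?_, ?_⟩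
  · intro s hs
    rw [Pi.add_apply, conv_zero h₁.a0 h₂.b0 s (by omega), conv_zero h₁.b0 h₂.a0 s (by omega),
      add_zero]
  · intro s h1 h2
    rw [Pi.add_apply]
    rcases le_total (k₁' + k₂) (k₁ + k₂') with h | h
    · exact add_pos_of_pos_of_nonneg (P1 s (by omega) (by omega)) (n2 s)
    · exact add_pos_of_nonneg_of_pos (n1 s) (P2 s (by omega) (by omega))
  · intro s hs
    exact conv_zero h₁.b0 h₂.b0 s (by omega)
  · intro s h1 h2
    exact P3 s (by omega) (by omega)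
  · intro s
    rw [Pi.add_apply, Pi.add_apply, ← conv_symm h₁.pa h₂.pb s, ← conv_symm h₁.pb h₂.pa s]
    congr 2 <;> ring
  · intro s
    rw [← conv_symm h₁.pb h₂.pb s]
    congr 1
    ring
  · intro s
    rw [Pi.add_apply, Pi.add_apply, add_mul, add_mul]
    refine add_le_add (c1 s) ?_
    have h3 := c2 s
    rw [conv_comm a₂ b₁, conv_comm b₂ b₁] at h3
    exact h3

theorem goodCross : GoalGoodCross := by
  refine ⟨?_, ?_, ?_, ?_, ?_, ?_, ?_, ?_, ?_, ?_, ?_, ?_⟩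
  · intro s
    split_ifs <;> norm_num
  · intro s
    by_cases h0 : s = 0
    · subst h0
      norm_num
    · by_cases h1 : s = 1
      · subst h1
        norm_num
      · have e1 : s - 1 ≠ 0 := by omega
        have e2 : 1 - s ≠ 0 := by omega
        simp only [h0, e1, e2, if_false]
  · omega
  · omega
  · omega
  · intro s hs
    have e1 : s ≠ 0 := by omega
    have e2 : 1 - s ≠ 0 := by omega
    simp only [e1, e2, if_false, add_zero]
  · intro s h1 h2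
    have h3 : s = 0 ∨ s = 1 := by omega
    rcases h3 with rfl | rfl <;> norm_num
  · intro s hs
    have e1 : s ≠ 0 := by omega
    simp only [e1, if_false]
  · intro s h1 h2
    have e1 : s = 0 := by omega
    subst e1
    norm_num
  · intro s
    by_cases h0 : s = 0
    · subst h0
      norm_num
    · by_cases h1 : s = 1
      · subst h1
        norm_num
      · have e1 : 1 - s ≠ 0 := by omega
        have e2 : 1 - (1 - s) ≠ 0 := by omega
        simp only [h0, e1, e2, if_false]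
  · intro s
    have e : (1 - 1 - s = 0) ↔ (s = 0) := by omega
    simp only [e]
  · intro s
    by_cases h1 : s = 1
    · subst h1
      norm_num
    · have e1 : s - 1 ≠ 0 := by omega
      simp only [e1, if_false, mul_zero]
      refine mul_nonneg (add_nonneg ?_ ?_) ?_ <;> split_ifs <;> norm_num

end Pool.Agent.Helper32.Arb
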