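import Pool.Agent.Helper37.Arb.Goals

/-!
Project ARB (MP_2b0227_gt), packet NEST.
-/

namespace Pool.Agent.Helper32.Arb

open Pool.Agent.Helper37.Arb

/-- Chain of ratios. -/
theorem chain (f g : ℤ → ℝ) (M : ℤ) (n : ℕ) (hf : ∀ s, M ≤ s → s ≤ M + n + 1 → 0 < f s)
    (hg : ∀ s, M - 1 ≤ s → s ≤ M + n → 0 < g s)
    (h : ∀ s, M ≤ s → s ≤ M + n → f (s + 1) * g (s - 1) ≤ f s * g s) :
    f (M + n + 1) * g (M - 1) ≤ f M * g (M + n) := by
  induction n with
  | zero => simpa using h M le_rfl (by simp)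
  | succ n ih =>
    have ih' := ih (fun s h1 h2 ↦ hf s h1 (by push_cast; linarith))
      (fun s h1 h2 ↦ hg s h1 (by push_cast; linarith))
      (fun s h1 h2 ↦ h s h1 (by push_cast; linarith))
    have hs := h (M + n + 1) (by linarith [Int.natCast_nonneg n]) (by push_cast; linarith)
    have e1 : M + (n : ℤ) + 1 - 1 = M + n := by ring
    rw [e1] at hs
    have e2 : M + ((n + 1 : ℕ) : ℤ) = M + n + 1 := by push_cast; ring
    rw [e2]
    have p1 : 0 < f (M + n + 1) := hf _ (by linarith [Int.natCast_nonneg n]) (by push_cast; linarith)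
    have p2 : 0 < g (M + n) := hg _ (by linarith [Int.natCast_nonneg n]) (by push_cast; linarith)
    have p3 : 0 < g (M + n + 1) := hg _ (by linarith [Int.natCast_nonneg n]) (by push_cast; linarith)
    have p4 : 0 < g (M - 1) := hg _ le_rfl (by linarith [Int.natCast_nonneg (n + 1)])
    refine le_of_mul_le_mul_right ?_ (mul_pos p1 p2)
    calc f (M + n + 1 + 1) * g (M - 1) * (f (M + n + 1) * g (M + n))
        = (f (M + n + 1 + 1) * g (M + n)) * (f (M + n + 1) * g (M - 1)) := by ring
      _ ≤ (f (M + n + 1) * g (M + n + 1)) * (f M * g (M + n)) :=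
          mul_le_mul hs ih' (mul_pos p1 p4).le (mul_pos p1 p3).le
      _ = f M * g (M + n + 1) * (f (M + n + 1) * g (M + n)) := by ring

section

variable {N k k' : ℤ} {a b : ℤ → ℝ}

theorem a_nonneg (h : Good1 N k k' a b) (s : ℤ) : 0 ≤ a s := by
  by_cases h1 : s < k' ∨ N - k' < s
  · exact (h.a0 s h1).ge
  · push Not at h1
    exact (h.a1 s h1.1 h1.2).le

theorem b_nonneg (h : Good1 N k k' a b) (s : ℤ) : 0 ≤ b s := by
  by_cases h1 : s < k ∨ N - 1 - k < s
  · exact (h.b0 s h1).ge
  · push Not at h1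
    exact (h.b1 s h1.1 h1.2).le

theorem a_rng (h : Good1 N k k' a b) {s : ℤ} (hs : a s ≠ 0) : k' ≤ s ∧ s ≤ N - k' := by
  by_contra hc
  apply hs
  apply h.a0
  by_contra h2
  push Not at h2
  exact hc h2

theorem b_rng (h : Good1 N k k' a b) {s : ℤ} (hs : b s ≠ 0) : k ≤ s ∧ s ≤ N - 1 - k := by
  by_contra hc
  apply hs
  apply h.b0
  by_contra h2
  push Not at h2
  exact hc h2

/-- The mirror image of `s2`. -/
theorem s2' (h : Good1 N k k' a b) (s : ℤ) : a s * b (s + 1) ≤ a (s + 1) * b s := by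
  have h1 := h.s2 (N - s - 1)
  have e1 : a (N - s - 1 + 1) = a s := by rw [← h.pa s]; congr 1; ring
  have e2 : b (N - s - 1 - 1) = b (s + 1) := by rw [← h.pb (s + 1)]; congr 1; ring
  have e3 : a (N - s - 1) = a (s + 1) := by rw [← h.pa (s + 1)]; congr 1; ring
  have e4 : b (N - s - 1) = b s := by rw [← h.pb s]; congr 1; ring
  rw [e1, e2, e3, e4] at h1
  exact h1

theorem logc (h : Good1 N k k' a b) (s : ℤ) : b (s + 1) * b (s - 1) ≤ b s * b s := by
  by_cases h0 : b (s + 1) * b (s - 1) = 0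
  · rw [h0]
    exact mul_self_nonneg _
  · have h1 := b_rng h (left_ne_zero_of_mul h0)
    have h2 := b_rng h (right_ne_zero_of_mul h0)
    have hk := h.hk
    have p1 : 0 < a s := h.a1 s (by omega) (by omega)
    have p2 : 0 < a (s + 1) := h.a1 (s + 1) (by omega) (by omega)
    have p3 : 0 ≤ b (s + 1) := b_nonneg h _
    have p4 : 0 ≤ b (s - 1) := b_nonneg h _
    have p5 : 0 ≤ b s := b_nonneg h _
    refine le_of_mul_le_mul_right ?_ (mul_pos p1 p2)
    calc b (s + 1) * b (s - 1) * (a s * a (s + 1))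
        = (a (s + 1) * b (s - 1)) * (a s * b (s + 1)) := by ring
      _ ≤ (a s * b s) * (a (s + 1) * b s) :=
          mul_le_mul (h.s2 s) (s2' h s) (mul_nonneg p1.le p3) (mul_nonneg p1.le p5)
      _ = b s * b s * (a s * a (s + 1)) := by ring

end

theorem nest1 : GoalNest1 := by
  intro N k k' a b h
  have hk := h.hk
  constructor
  · intro I J hJI
    by_cases h0 : b (I + 1) * b (J - 1) = 0
    · rw [h0]
      exact mul_nonneg (b_nonneg h _) (b_nonneg h _)
    · have h1 := b_rng h (left_ne_zero_of_mul h0)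
      have h2 := b_rng h (right_ne_zero_of_mul h0)
      obtain ⟨n, hn⟩ := Int.eq_ofNat_of_zero_le (sub_nonneg.2 hJI)
      have e : I = J + n := by linarith
      subst e
      rw [mul_comm (b (J + n)) (b J)]
      refine chain b b J n ?_ ?_ (fun s _ _ ↦ logc h s)
      · intro s h3 h4
        exact h.b1 s (by omega) (by omega)
      · intro s h3 h4
        exact h.b1 s (by omega) (by omega)
  · intro M N' hM
    by_cases h0 : a (N' + 1) * b (M - 1) = 0
    · rw [h0]
      exact mul_nonneg (a_nonneg h _) (b_nonneg h _)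
    · have h1 := a_rng h (left_ne_zero_of_mul h0)
      have h2 := b_rng h (right_ne_zero_of_mul h0)
      obtain ⟨n, hn⟩ := Int.eq_ofNat_of_zero_le (sub_nonneg.2 hM)
      have e : N' = M + n := by linarith
      subst e
      refine chain a b M n ?_ ?_ (fun s _ _ ↦ h.s2 s)
      · intro s h3 h4
        exact h.a1 s (by omega) (by omega)
      · intro s h3 h4
        exact h.b1 s (by omega) (by omega)

theorem nest2 : GoalNest2 := by
  intro N k L b h
  have hh := h.half
  obtain ⟨n1, n2⟩ := nest1 N k k _ b hh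
  set a : ℤ → ℝ := fun s ↦ b s + L (N - s) with ha
  have hL : ∀ s, L s = a s - b (s - 1) := by
    intro s
    have := h.rel s
    simp only [ha]
    linarith
  have hR : ∀ s, L (N - s) = a s - b s := by
    intro s
    simp only [ha]
    ring
  have hR0 : ∀ s, 0 ≤ L (N - s) := fun s ↦ h.L0 _
  -- `L (I+1) a I ≤ L I a (I+1)`
  have q1 : ∀ I, L (I + 1) * a I ≤ L I * a (I + 1) := by
    intro I
    have h1 := hh.s2 I
    rw [hL (I + 1), hL I]
    have e : I + 1 - 1 = I := by ring
    rw [e]
    have h1' : a (I + 1) * b (I - 1) ≤ a I * b I := h1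
    nlinarith [h1']
  -- `R (J-1) b J ≤ R J b (J-1)`
  have q2 : ∀ J, L (N - (J - 1)) * b J ≤ L (N - J) * b (J - 1) := by
    intro J
    have h1 : a (J - 1) * b (J - 1 + 1) ≤ a (J - 1 + 1) * b (J - 1) := s2' hh (J - 1)
    have e : J - 1 + 1 = J := by ring
    rw [e] at h1
    rw [hR (J - 1), hR J]
    nlinarith [h1]
  -- `a (I+1) b (J-1) ≤ a I b J`
  have q3 : ∀ I J, J ≤ I → a (I + 1) * b (J - 1) ≤ a I * b J := by
    intro I J hJI
    have a0 : ∀ s, 0 ≤ a s := a_nonneg hh
    have b0 : ∀ s, 0 ≤ b s := b_nonneg hh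
    by_cases h0 : a (I + 1) * b (J - 1) = 0
    · rw [h0]
      exact mul_nonneg (a0 _) (b0 _)
    · have h1 := a_rng hh (left_ne_zero_of_mul h0)
      have h2 := b_rng hh (right_ne_zero_of_mul h0)
      have p1 : 0 < b I := hh.b1 I (by omega) (by omega)
      have p2 : 0 < b (I - 1) := hh.b1 (I - 1) (by omega) (by omega)
      have h3 : a (I + 1) * b (I - 1) ≤ a I * b I := hh.s2 I
      have h4 : b (J - 1) * b I ≤ b J * b (I - 1) := by
        rcases eq_or_lt_of_le hJI with h5 | h5
        · subst h5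
          linarith
        · have h6 := n1 (I - 1) J (by omega)
          have e : I - 1 + 1 = I := by ring
          rw [e] at h6
          linarith
      refine le_of_mul_le_mul_right ?_ (mul_pos p1 p2)
      calc a (I + 1) * b (J - 1) * (b I * b (I - 1))
          = (a (I + 1) * b (I - 1)) * (b (J - 1) * b I) := by ring
        _ ≤ (a I * b I) * (b J * b (I - 1)) :=
            mul_le_mul h3 h4 (mul_nonneg (b0 _) (b0 _)) (mul_nonneg (a0 _) (b0 _))
        _ = a I * b J * (b I * b (I - 1)) := by ring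
  have a0 : ∀ s, 0 ≤ a s := a_nonneg hh
  have b0 : ∀ s, 0 ≤ b s := b_nonneg hh
  intro I J hJI
  refine ⟨?_, ?_, ?_⟩
  · by_cases h0 : L (I + 1) * b (J - 1) = 0
    · rw [h0]
      exact mul_nonneg (h.L0 _) (b0 _)
    · have h2 := b_rng hh (right_ne_zero_of_mul h0)
      have pL : 0 < L (I + 1) := lt_of_le_of_ne (h.L0 _) (left_ne_zero_of_mul h0).symm
      have p1 : 0 < a (I + 1) := by
        have := hL (I + 1)
        have e : I + 1 - 1 = I := by ring
        rw [e] at this
        linarith [b0 I]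
      have h1 := a_rng hh p1.ne'
      have p2 : 0 < a I := hh.a1 I (by omega) (by omega)
      refine le_of_mul_le_mul_right ?_ (mul_pos p1 p2)
      calc L (I + 1) * b (J - 1) * (a (I + 1) * a I)
          = (L (I + 1) * a I) * (a (I + 1) * b (J - 1)) := by ring
        _ ≤ (L I * a (I + 1)) * (a I * b J) :=
            mul_le_mul (q1 I) (q3 I J hJI) (mul_nonneg p1.le (b0 _))
              (mul_nonneg (h.L0 _) p1.le)
        _ = L I * b J * (a (I + 1) * a I) := by ring
  · show L (I + 1) * L (N - (J - 1)) ≤ L I * L (N - J)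
    by_cases h0 : L (I + 1) * L (N - (J - 1)) = 0
    · rw [h0]
      exact mul_nonneg (h.L0 _) (h.L0 _)
    · have pL : 0 < L (I + 1) := lt_of_le_of_ne (h.L0 _) (left_ne_zero_of_mul h0).symm
      have pR : 0 < L (N - (J - 1)) := lt_of_le_of_ne (h.L0 _) (right_ne_zero_of_mul h0).symm
      have p1 : 0 < a (I + 1) := by
        have := hL (I + 1)
        have e : I + 1 - 1 = I := by ring
        rw [e] at this
        linarith [b0 I]
      have p2 : 0 < a (J - 1) := by
        have := hR (J - 1)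
        linarith [b0 (J - 1)]
      have h1 := a_rng hh p1.ne'
      have h2 := a_rng hh p2.ne'
      have p3 : 0 < a I := hh.a1 I (by omega) (by omega)
      have p4 : 0 < b J := hh.b1 J (by omega) (by omega)
      have p5 : 0 < b (J - 1) := hh.b1 (J - 1) (by omega) (by omega)
      refine le_of_mul_le_mul_right ?_ (mul_pos (mul_pos p1 p3) (mul_pos p4 p5))
      calc L (I + 1) * L (N - (J - 1)) * (a (I + 1) * a I * (b J * b (J - 1)))
          = (L (I + 1) * a I) * (L (N - (J - 1)) * b J) * (a (I + 1) * b (J - 1)) := by ring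
        _ ≤ (L I * a (I + 1)) * (L (N - J) * b (J - 1)) * (a I * b J) :=
            mul_le_mul (mul_le_mul (q1 I) (q2 J) (mul_nonneg (h.L0 _) p4.le)
              (mul_nonneg (h.L0 _) p1.le)) (q3 I J hJI) (mul_nonneg p1.le p5.le)
              (mul_nonneg (mul_nonneg (h.L0 _) p1.le) (mul_nonneg (h.L0 _) p5.le))
        _ = L I * L (N - J) * (a (I + 1) * a I * (b J * b (J - 1))) := by ring
  · have h1 := n2 J I hJI
    have h2 : (b (I + 1) + L (N - (I + 1))) * b (J - 1) ≤ (b J + L (N - J)) * b I := h1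
    show (b (I + 1) + L (N - (I + 1))) * b (J - 1) ≤ b I * (b J + L (N - J))
    linarith

end Pool.Agent.Helper32.Arb
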